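import Mathlib
import Pool.Agent.MP_86d647_an.TDiam

/-!
Polarization does not decrease the negative eigenvalue of the logarithmic potential operator.
-/

set_option autoImplicit false

open MeasureTheory Filter Set
open Pool.Agent.MP_86d647_an

namespace Pool.Agent.Results.MP_86d647_an.Polarization

/-- For every bounded open set `Ω` of the plane and every open half-plane `{x | ⟨n, x⟩ < c}`
with `‖n‖ = 1`, the negative eigenvalue of the logarithmic potential operator of `Ω` is at most
that of the polarization of `Ω`. -/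
theorem result (Ω : Set Plane) (hopen : IsOpen Ω) (hbdd : Bornology.IsBounded Ω)
    (n : Plane) (hn : ‖n‖ = 1) (c : ℝ) :
    negEigenvalue Ω ≤ negEigenvalue (polarize n c Ω) := by
  have hnonpos : ∀ S : Set Plane, negEigenvalue S ≤ 0 := by
    intro S
    unfold negEigenvalue
    split_ifs
    · by_cases hb : BddBelow {τ : ℝ | τ < 0 ∧ IsEigenvalue S τ}
      · rcases eq_empty_or_nonempty {τ : ℝ | τ < 0 ∧ IsEigenvalue S τ} with h | ⟨τ, hτ⟩
        · rw [h, Real.sInf_empty]
        · exact (csInf_le hb hτ).trans hτ.1.le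
      · rw [Real.sInf_of_not_bddBelow hb]
    · exact le_rfl
  have hΩ : MeasurableSet Ω := hopen.measurableSet
  have him : reflect n c '' Ω = reflect n c ⁻¹' Ω :=
    congrFun (image_eq_preimage_of_inverse (reflect_reflect hn) (reflect_reflect hn)) Ω
  have hΩ' : MeasurableSet (reflect n c '' Ω) := by
    rw [him]
    exact measurable_reflect hΩ
  have hP : MeasurableSet (polarize n c Ω) :=
    ((hΩ.union hΩ').inter measurableSet_halfPlane).union
      ((hΩ.inter hΩ').diff measurableSet_halfPlane)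
  have hiso : Isometry (reflect n c) := Isometry.of_dist_eq fun x y => by
    rw [dist_eq_norm, dist_eq_norm, norm_reflect_sub_reflect hn]
  have hS : Bornology.IsBounded (Ω ∪ reflect n c '' Ω) :=
    hbdd.union (hiso.lipschitz.isBounded_image hbdd)
  have hPS : polarize n c Ω ⊆ Ω ∪ reflect n c '' Ω := by
    rintro x (⟨h, -⟩ | ⟨⟨h, -⟩, -⟩)
    · exact h
    · exact Or.inl h
  set R := Metric.diam (Ω ∪ reflect n c '' Ω)
  have hR : ∀ x ∈ Ω, ∀ y ∈ Ω, ‖x - y‖ ≤ R := fun x hx y hy => by
    rw [← dist_eq_norm]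
    exact Metric.dist_le_diam_of_mem hS (Or.inl hx) (Or.inl hy)
  have hR' : ∀ x ∈ polarize n c Ω, ∀ y ∈ polarize n c Ω, ‖x - y‖ ≤ R := fun x hx y hy => by
    rw [← dist_eq_norm]
    exact Metric.dist_le_diam_of_mem hS (hPS hx) (hPS hy)
  have hfin : volume Ω ≠ ⊤ := hbdd.measure_lt_top.ne
  have hfin' : volume (polarize n c Ω) ≠ ⊤ := (hS.subset hPS).measure_lt_top.ne
  have key : ∀ τ : ℝ, τ < 0 → IsEigenvalue (polarize n c Ω) τ → negEigenvalue Ω ≤ τ := by
    intro τ hτ he
    obtain ⟨u, hu, hi, h0, hpos, hform⟩ := he.exists_form hP hfin' hR'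
    refine le_of_forall_gt_imp_ge_of_dense fun ν hν => ?_
    rcases le_or_gt 0 ν with hν0 | hν0
    · exact (hnonpos Ω).trans hν0
    obtain ⟨w, hw, hw0, hwΩ, hneg⟩ := transfer hn hΩ hfin hR hR' hu hi h0 (μ := -ν)
      (by linarith) (by rw [hform]; nlinarith)
    have h1 : 0 ≤ ∫ x, w x ^ 2 := integral_nonneg fun x => sq_nonneg _
    have hT : 1 < transDiam (closure Ω) :=
      one_lt_transDiam hbdd hR hw hw0 hwΩ (by nlinarith)
    obtain ⟨lam, hlam, hle⟩ := exists_eigenvalue hΩ hfin hR hw.sq hwΩ (μ := -ν) (by linarith) hneg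
    rw [negEigenvalue, if_pos hT]
    have hmem : lam ∈ {τ : ℝ | τ < 0 ∧ IsEigenvalue Ω τ} := ⟨by linarith, hle⟩
    refine (csInf_le ⟨_, fun t ht => ht.2.lower_bound hΩ hfin hR⟩ hmem).trans ?_
    linarith
  rw [negEigenvalue.eq_1 (polarize n c Ω)]
  split_ifs
  · rcases eq_empty_or_nonempty {τ : ℝ | τ < 0 ∧ IsEigenvalue (polarize n c Ω) τ} with h | h
    · rw [h, Real.sInf_empty]
      exact hnonpos Ω
    · exact le_csInf h fun τ hτ => key τ hτ.1 hτ.2
  · exact hnonpos Ω

end Pool.Agent.Results.MP_86d647_an.Polarization
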